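import Pool.Agent.TH158.FM.Stm2

set_option autoImplicit false

/-!
Explicit pointwise bound for zeta on the critical line: the assembly.
-/

namespace Pool.Agent.TH45.FM

open Complex MeasureTheory Set Filter Topology
open Pool.Agent.TH158.FM

/-! ### elementary sums -/

theorem sum_rsqrt (n : ℕ) (hn : 1 ≤ n) :
    ∑ k ∈ Finset.Icc 1 n, 1 / Real.sqrt (k : ℝ) ≤ 2 * Real.sqrt n - 1 := by
  induction n, hn using Nat.le_induction with
  | base => simp; norm_num
  | succ n hn ih =>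
    rw [Finset.sum_Icc_succ_top (by omega)]
    have h0 : (0 : ℝ) < n := by exact_mod_cast hn
    have hs : 0 < Real.sqrt (n : ℝ) := Real.sqrt_pos.2 h0
    have hs1 : 0 < Real.sqrt ((n + 1 : ℕ) : ℝ) := Real.sqrt_pos.2 (by positivity)
    have e0 : Real.sqrt (n : ℝ) ^ 2 = n := Real.sq_sqrt h0.le
    have e1 : Real.sqrt ((n + 1 : ℕ) : ℝ) ^ 2 = n + 1 := by
      rw [Real.sq_sqrt (by positivity)]; push_cast; ring
    have h1 : 1 / Real.sqrt ((n + 1 : ℕ) : ℝ) ≤
        2 * (Real.sqrt ((n + 1 : ℕ) : ℝ) - Real.sqrt (n : ℝ)) := by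
      rw [div_le_iff₀ hs1]
      nlinarith [sq_nonneg (Real.sqrt ((n + 1 : ℕ) : ℝ) - Real.sqrt (n : ℝ))]
    linarith

theorem harm_le (n : ℕ) : ∑ k ∈ Finset.Icc 1 n, 1 / (k : ℝ) ≤ 1 + Real.log n := by
  have h := harmonic_le_one_add_log n
  rw [harmonic_eq_sum_Icc] at h
  push_cast at h
  simpa [one_div] using h

theorem log_step {x : ℝ} (hx : 0 < x) : Real.log (x + 1) - Real.log x ≤ 1 / x := by
  rw [← Real.log_div (by linarith) hx.ne']
  have h := Real.log_le_sub_one_of_pos (x := (x + 1) / x) (by positivity)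
  have : (x + 1) / x - 1 = 1 / x := by field_simp; ring
  linarith

theorem log_step' {x : ℝ} (hx : 1 < x) : 1 / x ≤ Real.log x - Real.log (x - 1) := by
  rw [← Real.log_div (by linarith) (by linarith)]
  have h := Real.one_sub_inv_le_log_of_pos (x := x / (x - 1)) (by
    apply div_pos <;> linarith)
  have h2 : 1 - (x / (x - 1))⁻¹ = 1 / x := by
    have : x - 1 ≠ 0 := by linarith
    field_simp
    ring
  linarith

/-- `∑_{j ≤ n} 1 / (j - 1/2) ≤ 2 + log (2 n - 1)` -/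
theorem odd_le (n : ℕ) (hn : 1 ≤ n) :
    ∑ j ∈ Finset.Icc 1 n, 1 / ((j : ℝ) - 1 / 2) ≤ 2 + Real.log (2 * n - 1) := by
  induction n, hn using Nat.le_induction with
  | base => norm_num
  | succ n hn ih =>
    rw [Finset.sum_Icc_succ_top (by omega)]
    have h0 : (1 : ℝ) ≤ n := by exact_mod_cast hn
    have h1 : 1 / (((n + 1 : ℕ) : ℝ) - 1 / 2) ≤
        Real.log (2 * ((n + 1 : ℕ) : ℝ) - 1) - Real.log (2 * (n : ℝ) - 1) := by
      push_cast
      have hx : (0 : ℝ) < 2 * n - 1 := by linarith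
      rw [← Real.log_div (by linarith) (by linarith)]
      have h := Real.one_sub_inv_le_log_of_pos (x := (2 * ((n : ℝ) + 1) - 1) / (2 * n - 1)) (by
        apply div_pos <;> linarith)
      have h2 : 1 - ((2 * ((n : ℝ) + 1) - 1) / (2 * n - 1))⁻¹ = 1 / ((n : ℝ) + 1 - 1 / 2) := by
        have h3 : (2 * (n : ℝ) - 1) ≠ 0 := by linarith
        have h4 : (2 * ((n : ℝ) + 1) - 1) ≠ 0 := by linarith
        have h5 : ((n : ℝ) + 1 - 1 / 2) ≠ 0 := by linarith
        rw [inv_div]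
        field_simp
        ring
      linarith
    linarith

theorem sum_shift (g : ℕ → ℝ) (M K : ℕ) :
    ∑ m ∈ Finset.Ioc M (M + K), g m = ∑ j ∈ Finset.Icc 1 K, g (M + j) := by
  induction K with
  | zero => simp
  | succ K ih =>
    rw [Finset.sum_Icc_succ_top (by omega), ← ih, ← add_assoc, Finset.sum_Ioc_succ_top (by omega)]

/-- the terms below `y` -/
theorem below (M : ℕ) (hM : 1 ≤ M) :
    ∑ m ∈ Finset.Icc 1 M, 1 / ((M : ℝ) + 1 / 2 - m) ≤ 2 + Real.log (2 * M - 1) := by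
  refine le_trans (le_of_eq ?_) (odd_le M hM)
  refine Finset.sum_bij' (fun m _ => M + 1 - m) (fun m _ => M + 1 - m) ?_ ?_ ?_ ?_ ?_
  · intro m hm
    rw [Finset.mem_Icc] at hm ⊢
    omega
  · intro m hm
    rw [Finset.mem_Icc] at hm ⊢
    omega
  · intro m hm
    rw [Finset.mem_Icc] at hm
    omega
  · intro m hm
    rw [Finset.mem_Icc] at hm
    omega
  · intro m hm
    rw [Finset.mem_Icc] at hm
    have : ((M + 1 - m : ℕ) : ℝ) = M + 1 - m := by
      rw [Nat.cast_sub (by omega)]; push_cast; ring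
    rw [this]
    congr 1
    ring

/-- the terms above `y` -/
theorem above (M K : ℕ) :
    ∑ m ∈ Finset.Ioc M (M + K), (1 / ((m : ℝ) - (M + 1 / 2)) - 1 / (m : ℝ)) ≤
      2 + Real.log 2 + Real.log (M + 1) := by
  have hl2 : 0 < Real.log 2 := Real.log_pos (by norm_num)
  have hlM : 0 ≤ Real.log ((M : ℝ) + 1) := Real.log_nonneg (by
    have : (0 : ℝ) ≤ M := Nat.cast_nonneg M
    linarith)
  rcases Nat.eq_zero_or_pos K with rfl | hK
  · simp
    linarith
  rw [Finset.sum_sub_distrib, sum_shift, sum_shift]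
  have h1 : ∑ j ∈ Finset.Icc 1 K, 1 / (((M + j : ℕ) : ℝ) - (M + 1 / 2)) ≤
      2 + Real.log (2 * K - 1) := by
    refine le_trans (le_of_eq ?_) (odd_le K hK)
    refine Finset.sum_congr rfl fun j _ => ?_
    push_cast
    congr 1
    ring
  have h2 : ∀ K : ℕ, Real.log ((M : ℝ) + K + 1) - Real.log (M + 1) ≤
      ∑ j ∈ Finset.Icc 1 K, 1 / ((M + j : ℕ) : ℝ) := by
    intro K
    induction K with
    | zero => simp
    | succ K ih =>
      rw [Finset.sum_Icc_succ_top (by omega)]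
      have h3 := log_step (x := (M : ℝ) + K + 1) (by positivity)
      push_cast at h3 ih ⊢
      have e1 : (M : ℝ) + (K + 1) + 1 = M + K + 1 + 1 := by ring
      have e2 : (M : ℝ) + (K + 1) = M + K + 1 := by ring
      rw [e1, e2]
      linarith
  have h3 := h2 K
  have hK1 : (1 : ℝ) ≤ K := by exact_mod_cast hK
  have hM0 : (0 : ℝ) ≤ M := Nat.cast_nonneg M
  have h4 : Real.log (2 * (K : ℝ) - 1) ≤ Real.log 2 + Real.log ((M : ℝ) + K + 1) := by
    rw [← Real.log_mul (by norm_num) (by positivity)]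
    exact Real.log_le_log (by linarith) (by linarith)
  linarith

/-- the terms with `m + y` -/
theorem plus (M K : ℕ) :
    ∑ m ∈ Finset.Icc 1 K, (1 / (m : ℝ) - 1 / ((m : ℝ) + (M + 1 / 2))) ≤
      1 + Real.log (M + 1) := by
  have h1 : ∑ m ∈ Finset.Icc 1 K, (1 / (m : ℝ) - 1 / ((m : ℝ) + (M + 1 / 2))) ≤
      ∑ m ∈ Finset.Icc 1 K, (1 / (m : ℝ) - 1 / ((m : ℝ) + (M + 1))) := by
    refine Finset.sum_le_sum fun m _ => ?_
    have : 1 / ((m : ℝ) + (M + 1)) ≤ 1 / ((m : ℝ) + (M + 1 / 2)) :=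
      one_div_le_one_div_of_le (by positivity) (by linarith)
    linarith
  refine h1.trans ?_
  have h2 : ∀ K : ℕ, ∑ m ∈ Finset.Icc 1 K, (1 / (m : ℝ) - 1 / ((m : ℝ) + (M + 1))) =
      ∑ m ∈ Finset.Icc 1 (M + 1), 1 / (m : ℝ) -
        ∑ m ∈ Finset.Ioc K (K + (M + 1)), 1 / (m : ℝ) := by
    intro K
    induction K with
    | zero =>
      have e : Finset.Icc 1 (M + 1) = Finset.Ioc 0 (M + 1) := by
        ext x
        simp only [Finset.mem_Icc, Finset.mem_Ioc]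
        omega
      rw [e]
      simp
    | succ K ih =>
      rw [Finset.sum_Icc_succ_top (by omega), ih]
      have e1 : ∑ m ∈ Finset.Ioc K (K + (M + 1)), 1 / (m : ℝ) + 1 / ((K + (M + 1) + 1 : ℕ) : ℝ) =
          1 / ((K + 1 : ℕ) : ℝ) + ∑ m ∈ Finset.Ioc (K + 1) (K + 1 + (M + 1)), 1 / (m : ℝ) := by
        rw [← Finset.sum_Ioc_succ_top (by omega)]
        have e2 : K + 1 + (M + 1) = K + (M + 1) + 1 := by ring
        rw [e2, ← Finset.sum_Ioc_consecutive (fun m : ℕ => 1 / (m : ℝ)) (Nat.le_succ K)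
          (by omega : K + 1 ≤ K + (M + 1) + 1)]
        simp
      have e3 : ((K + (M + 1) + 1 : ℕ) : ℝ) = ((K + 1 : ℕ) : ℝ) + (M + 1) := by push_cast; ring
      rw [e3] at e1
      linarith
  rw [h2]
  have h3 : 0 ≤ ∑ m ∈ Finset.Ioc K (K + (M + 1)), 1 / (m : ℝ) :=
    Finset.sum_nonneg fun m _ => by positivity
  have h4 := harm_le (M + 1)
  push_cast at h4
  linarith

/-! ### the pointwise bound -/

theorem norm_pt_le {t : ℝ} (ht : 44 ≤ t) : ‖pt (1 / 2) t‖ ≤ 1.0001 * t := by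
  have h1 : ‖pt (1 / 2) t‖ ^ 2 = 1 / 4 + t ^ 2 := by
    rw [← Complex.normSq_eq_norm_sq, Complex.normSq_apply]
    simp [pt]
    ring
  apply le_of_sq_le_sq _ (by linarith)
  rw [h1]
  nlinarith

/-- the bound for one term -/
theorem term_bound (h2 : S_GAM) (h3 : S_NS) {t c q y : ℝ} (ht : 44 ≤ t) (hq : 0 < q) (hy : 0 < y)
    (hc : c = q ^ 2) (hty : t = 2 * Real.pi * c * y) (m : ℕ) (hm : 1 ≤ m) :
    ((m : ℝ) < y → ‖TT m c t‖ ≤ 1 / Real.sqrt m + 1 / (2 * Real.pi * q) * (1 / m) +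
      1 / (Real.pi * q) * (1 / (y - m)) +
      1.0001 / (Real.pi * q) * (1 / (m : ℝ) - 1 / ((m : ℝ) + y))) ∧
    (y < (m : ℝ) → ‖TT m c t‖ ≤ 1.0001 / (Real.pi * q) * (1 / ((m : ℝ) - y) - 1 / (m : ℝ)) +
      1.0001 / (Real.pi * q) * (1 / (m : ℝ) - 1 / ((m : ℝ) + y))) := by
  have hπ : 0 < Real.pi := Real.pi_pos
  have hm0 : (0 : ℝ) < m := by exact_mod_cast hm
  have hc0 : 0 < c := by rw [hc]; positivity
  have hsq : Real.sqrt c = q := by rw [hc]; exact Real.sqrt_sq hq.le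
  have hn := norm_pt_le ht
  have hfac : ‖pt (1 / 2) t / (2 * Real.pi * I * m)‖ ≤ 1.0001 * c * y / m := by
    rw [norm_div, norm_mul, norm_mul, norm_mul, Complex.norm_I, Complex.norm_real,
      Complex.norm_natCast, Real.norm_of_nonneg hπ.le]
    simp only [Complex.norm_ofNat, mul_one]
    rw [div_le_div_iff₀ (by positivity) hm0]
    have : ‖pt (1 / 2) t‖ * m ≤ 1.0001 * t * m := mul_le_mul_of_nonneg_right hn hm0.le
    rw [hty] at this
    rw [hty]
    nlinarith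
  have hfac0 : (0 : ℝ) ≤ 1.0001 * c * y / m := by positivity
  -- the terms with `-m`
  have hneg : ‖pt (1 / 2) t / (2 * Real.pi * I * m) * KK (-m) c t‖ ≤
      1.0001 / (Real.pi * q) * (1 / (m : ℝ) - 1 / ((m : ℝ) + y)) := by
    rw [norm_mul]
    have h := h3.2 t c m hc0 hm (by linarith)
    rw [hsq] at h
    refine (mul_le_mul hfac h (norm_nonneg _) hfac0).trans (le_of_eq ?_)
    rw [hty, hc]
    have : (m : ℝ) + y ≠ 0 := by positivity
    field_simp
    ring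
  have htri : ‖TT m c t‖ ≤ ‖pt (1 / 2) t / (2 * Real.pi * I * m) * KK m c t‖ +
      ‖pt (1 / 2) t / (2 * Real.pi * I * m) * KK (-m) c t‖ := by
    unfold TT
    rw [mul_sub]
    exact norm_sub_le _ _
  constructor
  · intro hmy
    have hlt : 2 * Real.pi * m * c < t := by
      rw [hty]
      have : 0 < 2 * Real.pi * c := by positivity
      nlinarith
    have h := h2 t c m hc0 hm hlt
    rw [hsq] at h
    have e1 : 1 / (2 * Real.pi * m * q) = 1 / (2 * Real.pi * q) * (1 / m) := by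
      field_simp
    have e2 : 2 * q / (t - 2 * Real.pi * m * c) = 1 / (Real.pi * q) * (1 / (y - m)) := by
      have h5 : t - 2 * Real.pi * m * c = 2 * Real.pi * q ^ 2 * (y - m) := by
        rw [hty, hc]; ring
      have h6 : y - m ≠ 0 := by linarith
      rw [h5]
      field_simp
    rw [e1, e2] at h
    linarith
  · intro hmy
    have hlt : t < 2 * Real.pi * m * c := by
      rw [hty]
      have : 0 < 2 * Real.pi * c := by positivity
      nlinarith
    have h := h3.1 t c m hc0 hm (by linarith) hlt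
    rw [hsq] at h
    have h7 : ‖pt (1 / 2) t / (2 * Real.pi * I * m) * KK m c t‖ ≤
        1.0001 / (Real.pi * q) * (1 / ((m : ℝ) - y) - 1 / (m : ℝ)) := by
      rw [norm_mul]
      refine (mul_le_mul hfac h (norm_nonneg _) hfac0).trans (le_of_eq ?_)
      have h5 : 2 * Real.pi * m * c - t = 2 * Real.pi * q ^ 2 * (m - y) := by
        rw [hty, hc]; ring
      have h6 : (m : ℝ) - y ≠ 0 := by linarith
      rw [h5, hc]
      field_simp
      ring
    linarith

/-- the bound for the partial sums -/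
theorem sum_bound (h2 : S_GAM) (h3 : S_NS) {t c q : ℝ} {M : ℕ} (hM : 1 ≤ M) (ht : 44 ≤ t)
    (hq : 0 < q) (hc : c = q ^ 2) (hty : t = 2 * Real.pi * c * (M + 1 / 2)) (K : ℕ) :
    ‖∑ m ∈ Finset.Icc 1 (M + K), TT m c t‖ ≤ (2 * Real.sqrt M - 1) +
      1 / (2 * Real.pi * q) * (1 + Real.log M) + 1 / (Real.pi * q) * (2 + Real.log (2 * M - 1)) +
      1.0001 / (Real.pi * q) * (2 + Real.log 2 + Real.log (M + 1)) +
      1.0001 / (Real.pi * q) * (1 + Real.log (M + 1)) := by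
  have hπ : 0 < Real.pi := Real.pi_pos
  have hM0 : (0 : ℝ) ≤ M := Nat.cast_nonneg M
  have hy : (0 : ℝ) < M + 1 / 2 := by positivity
  refine (norm_sum_le _ _).trans ?_
  have hdis : Finset.Icc 1 (M + K) = Finset.Icc 1 M ∪ Finset.Ioc M (M + K) := by
    ext x
    simp only [Finset.mem_union, Finset.mem_Icc, Finset.mem_Ioc]
    omega
  have hdj : Disjoint (Finset.Icc 1 M) (Finset.Ioc M (M + K)) := by
    rw [Finset.disjoint_left]
    intro x hx hx'
    rw [Finset.mem_Icc] at hx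
    rw [Finset.mem_Ioc] at hx'
    omega
  rw [hdis, Finset.sum_union hdj]
  have hA : ∑ m ∈ Finset.Icc 1 M, ‖TT m c t‖ ≤ ∑ m ∈ Finset.Icc 1 M,
      (1 / Real.sqrt m + 1 / (2 * Real.pi * q) * (1 / m) +
      1 / (Real.pi * q) * (1 / ((M : ℝ) + 1 / 2 - m)) +
      1.0001 / (Real.pi * q) * (1 / (m : ℝ) - 1 / ((m : ℝ) + (M + 1 / 2)))) := by
    refine Finset.sum_le_sum fun m hm => ?_
    rw [Finset.mem_Icc] at hm
    refine (term_bound h2 h3 ht hq hy hc hty m hm.1).1 ?_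
    have : (m : ℝ) ≤ M := by exact_mod_cast hm.2
    linarith
  have hB : ∑ m ∈ Finset.Ioc M (M + K), ‖TT m c t‖ ≤ ∑ m ∈ Finset.Ioc M (M + K),
      (1.0001 / (Real.pi * q) * (1 / ((m : ℝ) - (M + 1 / 2)) - 1 / (m : ℝ)) +
      1.0001 / (Real.pi * q) * (1 / (m : ℝ) - 1 / ((m : ℝ) + (M + 1 / 2)))) := by
    refine Finset.sum_le_sum fun m hm => ?_
    rw [Finset.mem_Ioc] at hm
    refine (term_bound h2 h3 ht hq hy hc hty m (by omega)).2 ?_
    have : ((M + 1 : ℕ) : ℝ) ≤ m := by exact_mod_cast hm.1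
    push_cast at this
    linarith
  rw [Finset.sum_add_distrib, Finset.sum_add_distrib, Finset.sum_add_distrib, ← Finset.mul_sum,
    ← Finset.mul_sum, ← Finset.mul_sum] at hA
  rw [Finset.sum_add_distrib, ← Finset.mul_sum, ← Finset.mul_sum] at hB
  have hC : ∑ m ∈ Finset.Icc 1 M, (1 / (m : ℝ) - 1 / ((m : ℝ) + (M + 1 / 2))) +
      ∑ m ∈ Finset.Ioc M (M + K), (1 / (m : ℝ) - 1 / ((m : ℝ) + (M + 1 / 2))) ≤
      1 + Real.log (M + 1) := by
    rw [← Finset.sum_union hdj, ← hdis]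
    exact plus M (M + K)
  have k1 := sum_rsqrt M hM
  have k2 := mul_le_mul_of_nonneg_left (harm_le M) (by positivity : 0 ≤ 1 / (2 * Real.pi * q))
  have k3 := mul_le_mul_of_nonneg_left (below M hM) (by positivity : 0 ≤ 1 / (Real.pi * q))
  have k4 := mul_le_mul_of_nonneg_left (above M K) (by positivity : 0 ≤ 1.0001 / (Real.pi * q))
  have k5 := mul_le_mul_of_nonneg_left hC (by positivity : 0 ≤ 1.0001 / (Real.pi * q))
  rw [mul_add] at k5
  linarith

/-- the numerical inequality -/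
theorem numeric {q ℓ a b L2 P : ℝ} (hq : 0 < q) (hq2 : 5 / 2 ≤ q ^ 2) (hP0 : 0 < P)
    (hP : P ≤ 0.31832) (hL : L2 ≤ 0.6932) (hL0 : 0 ≤ L2) (hℓ0 : 0 ≤ ℓ) (hℓ : ℓ ≤ L2 + 2 * (q / 2 - 1 + L2))
    (ha : 3 / 2 ≤ a) (hb : 3 / 2 ≤ b) (hab : |a ^ 2 - b ^ 2| ≤ 1 / 2) (hqb : q * b = a ^ 2) :
    (2 * q - 1) + (P / 5) / q + (1 / 2) / q + ((2 * b - 1) + (P / 2) / q * (1 + ℓ) +
      P / q * (2 + (L2 + ℓ)) + 1.0001 * P / q * (2 + L2 + ℓ) + 1.0001 * P / q * (1 + ℓ)) ≤
      4 * a + 1 := by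
  have h1 : 2 * q + 2 * b ≤ 4 * a + 1 / 20 := by
    have hb0 : 0 < b := by linarith
    have e : 2 * q + 2 * b - 4 * a = 2 * (a - b) ^ 2 / b := by
      have : q = a ^ 2 / b := by
        rw [eq_div_iff hb0.ne']; exact hqb
      rw [this]
      field_simp
      ring
    have h2 : (a - b) ^ 2 ≤ 1 / 36 := by
      have h3 : (a - b) ^ 2 * (a + b) ^ 2 = (a ^ 2 - b ^ 2) ^ 2 := by ring
      have h4 : (a ^ 2 - b ^ 2) ^ 2 ≤ 1 / 4 := by
        rw [← sq_abs]
        have := abs_nonneg (a ^ 2 - b ^ 2)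
        nlinarith
      have h5 : 9 ≤ (a + b) ^ 2 := by nlinarith
      have h6 := sq_nonneg (a - b)
      nlinarith
    have h3 : 2 * (a - b) ^ 2 / b ≤ 1 / 20 := by
      rw [div_le_iff₀ hb0]
      nlinarith
    linarith
  have h15 : 1.58 ≤ q := by
    by_contra h
    push Not at h
    nlinarith
  have h7 : (P / 5) / q + (1 / 2) / q + ((P / 2) / q * (1 + ℓ) +
      P / q * (2 + (L2 + ℓ)) + 1.0001 * P / q * (2 + L2 + ℓ) + 1.0001 * P / q * (1 + ℓ)) ≤ 2.95 := by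
    have e : (P / 5) / q + (1 / 2) / q + ((P / 2) / q * (1 + ℓ) +
      P / q * (2 + (L2 + ℓ)) + 1.0001 * P / q * (2 + L2 + ℓ) + 1.0001 * P / q * (1 + ℓ)) =
      (P / 5 + 1 / 2 + (P / 2 * (1 + ℓ) +
      P * (2 + (L2 + ℓ)) + 1.0001 * P * (2 + L2 + ℓ) + 1.0001 * P * (1 + ℓ))) / q := by
      field_simp
    rw [e, div_le_iff₀ hq]
    have hℓ' : ℓ ≤ 0.0796 + q := by linarith
    have h8 : P * ℓ ≤ 0.31832 * (0.0796 + q) := mul_le_mul hP hℓ' hℓ0 (by norm_num)
    have h9 : P * L2 ≤ 0.31832 * 0.6932 := mul_le_mul hP hL hL0 (by norm_num)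
    nlinarith
  linarith

theorem pw_all (h1 : S_SAW) (h2 : S_GAM) (h3 : S_NS) : S_PW := by
  intro t ht
  have hπ : 0 < Real.pi := Real.pi_pos
  have hπ1 : 3.1415 < Real.pi := Real.pi_gt_d4
  have hπ2 : Real.pi < 3.1416 := Real.pi_lt_d4
  have ht0 : 0 < t := by linarith
  set a : ℝ := (t / (2 * Real.pi)) ^ (1 / 4 : ℝ) with ha
  have ha0 : 0 < a := Real.rpow_pos_of_pos (by positivity) _
  have ha4 : a ^ 4 = t / (2 * Real.pi) := by
    rw [ha, ← Real.rpow_natCast, ← Real.rpow_mul (by positivity)]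
    norm_num
  have h7 : 7 ≤ a ^ 4 := by
    rw [ha4, le_div_iff₀ (by positivity)]
    linarith
  have ha2 : 2.6 ≤ a ^ 2 := by
    by_contra h
    push Not at h
    have h0 : 0 ≤ a ^ 2 := by positivity
    have : a ^ 4 = a ^ 2 * a ^ 2 := by ring
    nlinarith
  have ha32 : 3 / 2 ≤ a := by
    by_contra h
    push Not at h
    nlinarith
  obtain ⟨M, hMdef⟩ : ∃ M : ℕ, M = ⌊a ^ 2⌋₊ := ⟨_, rfl⟩
  have hMle : (M : ℝ) ≤ a ^ 2 := by rw [hMdef]; exact Nat.floor_le (by positivity)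
  have hMlt : a ^ 2 < (M : ℝ) + 1 := by rw [hMdef]; exact Nat.lt_floor_add_one _
  have hM2 : 2 ≤ M := by
    rw [hMdef]
    exact Nat.le_floor (by push_cast; linarith)
  have hM2' : (2 : ℝ) ≤ M := by exact_mod_cast hM2
  obtain ⟨y, hy⟩ : ∃ y : ℝ, y = (M : ℝ) + 1 / 2 := ⟨_, rfl⟩
  have hy0 : 5 / 2 ≤ y := by linarith
  obtain ⟨b, hb⟩ : ∃ b : ℝ, b = Real.sqrt y := ⟨_, rfl⟩
  have hb2 : b ^ 2 = y := by rw [hb]; exact Real.sq_sqrt (by linarith)
  have hb0 : 0 ≤ b := by rw [hb]; exact Real.sqrt_nonneg _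
  have hb32 : 3 / 2 ≤ b := by
    by_contra h
    push Not at h
    nlinarith
  obtain ⟨q, hq⟩ : ∃ q : ℝ, q = a ^ 2 / b := ⟨_, rfl⟩
  have hq0 : 0 < q := by rw [hq]; positivity
  have hqb : q * b = a ^ 2 := by rw [hq]; field_simp
  obtain ⟨c, hc⟩ : ∃ c : ℝ, c = q ^ 2 := ⟨_, rfl⟩
  have hc0 : 0 < c := by rw [hc]; positivity
  have hcy : c * y = a ^ 4 := by
    rw [hc, ← hb2, ← mul_pow, hqb]; ring
  have hty : t = 2 * Real.pi * c * (M + 1 / 2) := by
    rw [← hy, mul_assoc, hcy, ha4]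
    field_simp
  have hM4 : (M : ℝ) ^ 2 ≤ c * y := by
    rw [hcy]
    have : a ^ 4 = (a ^ 2) ^ 2 := by ring
    rw [this]
    exact pow_le_pow_left₀ (by positivity) hMle 2
  have hc1 : (M : ℝ) - 1 / 2 ≤ c := by
    by_contra h
    push Not at h
    have : c * y < (M - 1 / 2) * y := mul_lt_mul_of_pos_right h (by linarith)
    rw [hy] at this hM4
    nlinarith
  have hc52 : 5 / 2 ≤ c := by
    rcases Nat.lt_or_ge M 3 with h | h
    · have hM : M = 2 := by omega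
      rw [hy, hM] at hcy
      push_cast at hcy
      linarith
    · have : (3 : ℝ) ≤ M := by exact_mod_cast h
      linarith
  have hsq : Real.sqrt c = q := by rw [hc]; exact Real.sqrt_sq hq0.le
  -- logarithms
  obtain ⟨ℓ, hℓ⟩ : ∃ ℓ : ℝ, ℓ = Real.log ((M : ℝ) + 1) := ⟨_, rfl⟩
  have hℓ0 : 0 ≤ ℓ := by rw [hℓ]; exact Real.log_nonneg (by linarith)
  have hℓ1 : ℓ ≤ Real.log 2 + 2 * (q / 2 - 1 + Real.log 2) := by
    have k1 : ℓ ≤ Real.log (2 * q ^ 2) := by
      rw [hℓ, ← hc]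
      exact Real.log_le_log (by linarith) (by linarith)
    rw [Real.log_mul (by norm_num) (by positivity), Real.log_pow] at k1
    have k2 : Real.log q ≤ q / 2 - 1 + Real.log 2 := by
      have k3 := Real.log_le_sub_one_of_pos (x := q / 2) (by positivity)
      rw [Real.log_div hq0.ne' (by norm_num)] at k3
      linarith
    push_cast at k1
    linarith
  have hlog2 : Real.log 2 ≤ 0.6932 := by
    have := Real.log_two_lt_d9
    linarith
  have hlog20 : 0 ≤ Real.log 2 := Real.log_nonneg (by norm_num)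
  obtain ⟨P, hP⟩ : ∃ P : ℝ, P = 1 / Real.pi := ⟨_, rfl⟩
  have hP0 : 0 < P := by rw [hP]; positivity
  have hP1 : P ≤ 0.31832 := by
    rw [hP, div_le_iff₀ hπ]
    linarith
  have hab : |a ^ 2 - b ^ 2| ≤ 1 / 2 := by
    rw [hb2, hy, abs_le]
    constructor <;> linarith
  have hnum := numeric (q := q) (ℓ := ℓ) (a := a) (b := b) (L2 := Real.log 2) (P := P) hq0
    (by rw [← hc]; exact hc52) hP0 hP1 hlog2 hlog20 hℓ0 hℓ1 ha32 hb32 hab hqb
  -- the partial sums
  have hpart : ∀ K : ℕ, M ≤ K → ‖∑ m ∈ Finset.Icc 1 K, TT m c t‖ ≤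
      (2 * b - 1) + (P / 2) / q * (1 + ℓ) + P / q * (2 + (Real.log 2 + ℓ)) +
      1.0001 * P / q * (2 + Real.log 2 + ℓ) + 1.0001 * P / q * (1 + ℓ) := by
    intro K hK
    obtain ⟨K', rfl⟩ := Nat.exists_eq_add_of_le hK
    have hs := sum_bound h2 h3 (by omega : 1 ≤ M) ht hq0 hc hty K'
    have e1 : 1 / (2 * Real.pi * q) = (P / 2) / q := by rw [hP]; field_simp
    have e2 : 1 / (Real.pi * q) = P / q := by rw [hP]; field_simp
    have e3 : 1.0001 / (Real.pi * q) = 1.0001 * P / q := by rw [hP]; field_simp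
    rw [e1, e2, e3, ← hℓ] at hs
    have k1 : Real.sqrt M ≤ b := by
      rw [hb]; exact Real.sqrt_le_sqrt (by linarith)
    have k2 : Real.log M ≤ ℓ := by
      rw [hℓ]; exact Real.log_le_log (by linarith) (by linarith)
    have k3 : Real.log (2 * M - 1) ≤ Real.log 2 + ℓ := by
      rw [hℓ, ← Real.log_mul (by norm_num) (by linarith)]
      exact Real.log_le_log (by linarith) (by linarith)
    have k4 : (P / 2) / q * (1 + Real.log M) ≤ (P / 2) / q * (1 + ℓ) :=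
      mul_le_mul_of_nonneg_left (by linarith) (by positivity)
    have k5 : P / q * (2 + Real.log (2 * M - 1)) ≤ P / q * (2 + (Real.log 2 + ℓ)) :=
      mul_le_mul_of_nonneg_left (by linarith) (by positivity)
    linarith
  -- the limit
  have hlim := h1 t c hc0
  have hL := le_of_tendsto hlim.norm (by
    filter_upwards [eventually_ge_atTop M] with K hK
    exact hpart K hK)
  -- the other terms
  have hre : (pt (1 / 2) t).re = 1 / 2 := by simp [pt]
  have him : (pt (1 / 2) t).im = t := by simp [pt]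
  have hS : ‖∑ n ∈ Finset.Icc 1 ⌊c⌋₊, (n : ℂ) ^ (-(pt (1 / 2) t))‖ ≤ 2 * q - 1 := by
    refine (norm_sum_le _ _).trans ?_
    have hfl : 1 ≤ ⌊c⌋₊ := Nat.le_floor (by push_cast; linarith)
    have k1 : ∑ n ∈ Finset.Icc 1 ⌊c⌋₊, ‖(n : ℂ) ^ (-(pt (1 / 2) t))‖ =
        ∑ n ∈ Finset.Icc 1 ⌊c⌋₊, 1 / Real.sqrt (n : ℝ) := by
      refine Finset.sum_congr rfl fun n hn => ?_
      rw [Finset.mem_Icc] at hn
      rw [Complex.norm_natCast_cpow_of_pos (by omega), Complex.neg_re, hre,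
        Real.rpow_neg (Nat.cast_nonneg n), Real.sqrt_eq_rpow]
      exact (one_div _).symm
    rw [k1]
    refine (sum_rsqrt _ hfl).trans ?_
    have k2 : Real.sqrt (⌊c⌋₊ : ℝ) ≤ q := by
      rw [← hsq]
      exact Real.sqrt_le_sqrt (Nat.floor_le hc0.le)
    linarith
  have hT : ‖(c : ℂ) ^ (1 - pt (1 / 2) t) / (1 - pt (1 / 2) t)‖ ≤ (P / 5) / q := by
    rw [norm_div, Complex.norm_cpow_eq_rpow_re_of_pos hc0, Complex.sub_re, Complex.one_re, hre]
    have k0 : (1 - 1 / 2 : ℝ) = 1 / 2 := by norm_num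
    have k1 : c ^ (1 - 1 / 2 : ℝ) = q := by
      rw [k0, ← Real.sqrt_eq_rpow, hsq]
    rw [k1]
    have k2 : t ≤ ‖1 - pt (1 / 2) t‖ := by
      have k3 := Complex.abs_im_le_norm (1 - pt (1 / 2) t)
      rw [Complex.sub_im, Complex.one_im, him, zero_sub, abs_neg, abs_of_pos ht0] at k3
      exact k3
    refine (div_le_div_of_nonneg_left hq0.le ht0 k2).trans ?_
    rw [hty, ← hy, hP, hc]
    rw [div_le_div_iff₀ (by positivity) hq0]
    have : 1 / Real.pi / 5 * (2 * Real.pi * q ^ 2 * y) = q ^ 2 * (2 * y / 5) := by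
      field_simp
    rw [this]
    calc q * q = q ^ 2 * 1 := by ring
      _ ≤ q ^ 2 * (2 * y / 5) := mul_le_mul_of_nonneg_left (by linarith only [hy0]) (sq_nonneg q)
  have hF : ‖((Int.fract c - 1 / 2 : ℝ) : ℂ) * (c : ℂ) ^ (-(pt (1 / 2) t))‖ ≤ (1 / 2) / q := by
    rw [norm_mul, Complex.norm_real, Complex.norm_cpow_eq_rpow_re_of_pos hc0, Complex.neg_re, hre,
      Real.rpow_neg hc0.le, ← Real.sqrt_eq_rpow, hsq, Real.norm_eq_abs]
    have k1 : |Int.fract c - 1 / 2| ≤ 1 / 2 := by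
      rw [abs_le]
      constructor
      · linarith [Int.fract_nonneg c]
      · linarith [Int.fract_lt_one c]
    rw [div_eq_mul_inv]
    exact mul_le_mul_of_nonneg_right k1 (by positivity)
  have htri : ∀ z s u v : ℂ, ‖z‖ ≤ ‖z - s + u - v‖ + ‖s‖ + ‖u‖ + ‖v‖ := by
    intro z s u v
    have e : z = (z - s + u - v) + s - u + v := by ring
    calc ‖z‖ = ‖(z - s + u - v) + s - u + v‖ := by rw [← e]
      _ ≤ ‖(z - s + u - v) + s - u‖ + ‖v‖ := norm_add_le _ _
      _ ≤ ‖(z - s + u - v) + s‖ + ‖u‖ + ‖v‖ := by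
        have := norm_sub_le ((z - s + u - v) + s) u
        linarith
      _ ≤ _ := by
        have := norm_add_le (z - s + u - v) s
        linarith
  have hfin := htri (riemannZeta (pt (1 / 2) t))
    (∑ n ∈ Finset.Icc 1 ⌊c⌋₊, (n : ℂ) ^ (-(pt (1 / 2) t)))
    ((c : ℂ) ^ (1 - pt (1 / 2) t) / (1 - pt (1 / 2) t))
    (((Int.fract c - 1 / 2 : ℝ) : ℂ) * (c : ℂ) ^ (-(pt (1 / 2) t)))
  linarith

end Pool.Agent.TH45.FM
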